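import Mathlib
import Pool.Agent.R870.Cyc

set_option autoImplicit false

/-!
# The strong Lang conjecture for cyclotomic integers of bounded size

(1) For all natural numbers `d`, `r` and all real numbers `B` there is a number `M` such that for
every field `k` of characteristic zero, every `n` and every integral closed subvariety `X` of
projective `n`-space over `k` which is given by forms of degree at most `d` and is not uniruled
(for instance a variety of general type of positive dimension over a number field), there is ONE
proper closed subset `Z = X ∩ {G = 0}` of `X`, defined over `k`, with the following property.  For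
every extension field `L` of `k` and all vectors `v_1, …, v_r` in `L ^ (n + 1)`, at most `M` points
of `(X ∖ Z)(L)` have homogeneous coordinates `α_1 v_1 + … + α_r v_r` with cyclotomic integers
`α_j ∈ L` of arbitrary conductors such that the mean square of the absolute values of the complex
conjugates of `α_j` is at most `B` (for instance all these absolute values are at most `√B`).

For the unit vectors `v_j` and `r = n + 1`: over the maximal cyclotomic extension of `k`, an
infinite extension, at most `M` points of `X ∖ Z` have homogeneous coordinates which are
cyclotomic integers of house at most `√B`.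

(2) If `X` is uniruled (over a number field), this fails: for some `r` and every `G` there are
algebraic vectors `v_j` such that infinitely many points of `X` off `G = 0` are combinations of the
`v_j` with cyclotomic integers of mean square at most `1`.

Method: by Loxton's theorem (library folder `Helper781/CycHouse` of the starting repository) the
`α_j` are sums of a bounded number of roots of unity; then the uniform bound for multipliers of
small height (library folder `Y215/SP`).
-/

namespace Pool.Agent.Results.MP_7ede32_ag.CyclotomicPoints

open MvPolynomial Pool.Agent.Helper259.AbsHt Pool.Agent.H533R3.SL Pool.Agent.R870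

theorem result :
    (∀ (d r : ℕ) (B : ℝ), ∃ M : ℕ, ∀ (k : Type) [Field k] [CharZero k] (n N : ℕ)
      (P : Fin N → MvPolynomial (Fin (n + 1)) k), (∀ i, ∃ e, e ≤ d ∧ (P i).IsHomogeneous e) →
      (Ideal.span (Set.range P)).IsPrime → ¬ Uniruled (Ideal.span (Set.range P)) →
      ∃ G : MvPolynomial (Fin (n + 1)) k, (∃ e, G.IsHomogeneous e) ∧
        G ∉ Ideal.span (Set.range P) ∧
        ∀ (L : Type) [Field L] [Algebra k L] (v : Fin r → Fin (n + 1) → L),
          (cycOff P G B v).encard ≤ M) ∧
    (∀ (k : Type) [Field k] [NumberField k] (n N : ℕ) (P : Fin N → MvPolynomial (Fin (n + 1)) k),
      Uniruled (Ideal.span (Set.range P)) →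
      ∃ r : ℕ, ∀ G : MvPolynomial (Fin (n + 1)) k, (∃ e, G.IsHomogeneous e) →
        G ∉ Ideal.span (Set.range P) →
        ∃ (_ : Algebra k Qbar) (v : Fin r → Fin (n + 1) → Qbar), (cycOff P G 1 v).Infinite) :=
  ⟨cyc_bound, fun k _ _ _ _ P hu => cyc_converse k P hu⟩

end Pool.Agent.Results.MP_7ede32_ag.CyclotomicPoints
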