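import Mathlib
import Pool.Agent.R870.Lin

set_option autoImplicit false

/-!
# The strong Lang conjecture for linear recurrence sequences of points

Let `X` be an integral closed subvariety of projective `n`-space over a number field `k`.

(1) Suppose that `X` is not uniruled (for instance of general type, of positive dimension).  For
every `r` there is ONE proper closed subset `Z = X ∩ {G = 0}` of `X`, defined over `k`, such that
for EVERY linear recurrence sequence of order `r` of vectors of algebraic numbers
`x_m = M A ^ m v` (`A` any `r × r` matrix, `M` any matrix with `n + 1` rows, `v` any vector, all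
with algebraic entries, for instance in any finite extension `K` of `k`) only finitely many points
of `X ∖ Z` have homogeneous coordinates `x_m`, `m ≥ 0`.  No hypothesis is made on the other terms
of the sequence, nor on the eigenvalues of `A`, which can be zero, have quotients that are roots
of unity, or multiplicities.

(2) If `X` is uniruled, this fails: for some `r` and every `G` there is a linear recurrence
sequence of order `r` over a number field `K ⊇ k` all of whose terms lie on `X` such that
infinitely many points off `G = 0` have coordinates `x_m`.

Method: the terms are `∑ α_j ^ m m ^ (l_j) w_j`.  By the theorem on sums of vectors with multipliers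
in a finitely generated group and moving coefficients (library folder `Y215/SK` of the starting
repository), for large `m` a term on `X ∖ Z` is proportional to a partial sum in which all
quotients `α_i / α_j` are roots of unity, hence to the value at `m` of one of finitely many
vectors of polynomials.  If such a vector of polynomials has infinitely many values on `X`, then
it parametrises a rational curve on `X`, which is constant or contained in `Z`.
-/

namespace Pool.Agent.Results.MP_7ede32_ag.LinearRecurrences

open MvPolynomial Pool.Agent.Helper259.AbsHt Pool.Agent.H533R3.SL Pool.Agent.R870

theorem result (k : Type) [Field k] [NumberField k] (n N : ℕ)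
    (P : Fin N → MvPolynomial (Fin (n + 1)) k) (hP : ∀ i, ∃ e, (P i).IsHomogeneous e)
    (hprime : (Ideal.span (Set.range P)).IsPrime) :
    (¬ Uniruled (Ideal.span (Set.range P)) → ∀ r : ℕ,
      ∃ G : MvPolynomial (Fin (n + 1)) k, (∃ e, G.IsHomogeneous e) ∧
        G ∉ Ideal.span (Set.range P) ∧
        ∀ [Algebra k Qbar] (M : Matrix (Fin (n + 1)) (Fin r) Qbar)
          (A : Matrix (Fin r) (Fin r) Qbar) (v : Fin r → Qbar), (termsOff P G M A v).Finite) ∧
    (Uniruled (Ideal.span (Set.range P)) →
      ∃ r : ℕ, ∀ G : MvPolynomial (Fin (n + 1)) k, (∃ e, G.IsHomogeneous e) →
        G ∉ Ideal.span (Set.range P) →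
        ∃ (K : Type) (_ : Field K) (_ : NumberField K) (_ : Algebra k K)
          (M : Matrix (Fin (n + 1)) (Fin r) K) (A : Matrix (Fin r) (Fin r) K) (v : Fin r → K),
          (∀ m i, aeval (term M A v m) (P i) = 0) ∧ (termsOff P G M A v).Infinite) :=
  ⟨fun hnu r => lin_finite P hP hprime hnu r, fun hu => lin_converse k P hu⟩

end Pool.Agent.Results.MP_7ede32_ag.LinearRecurrences
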