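import Mathlib
import Pool.Agent.R870.Near

set_option autoImplicit false

/-!
# The strong Lang conjecture for points over `Qbar` close to a group of finite rank

(1) For all natural numbers `d` and `r` there is a number `ε > 0` such that for every field `k` of
algebraic numbers, every `n` and every integral closed subvariety `X` of projective `n`-space over
`k` which is given by forms of degree at most `d` and is not uniruled (for instance of general type,
of positive dimension), there is ONE proper closed subset `Z = X ∩ {G = 0}` of `X`, defined over
`k`, with the following property.  For every finitely generated group `Γ` of nonzero algebraic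
numbers there are `A` and `e` such that for ALL vectors `V_1, …, V_r` of algebraic numbers only
finitely many points of `X ∖ Z` over the field `Qbar` of all algebraic numbers, and at most
`A (1 + h(V)) ^ e` points, have homogeneous coordinates `∑ u_j s_j V_j`, where the `u_j` are
algebraic numbers with a power in `Γ` and `(s_1 : … : s_r)` is any point over `Qbar` of height less
than `ε`.

The degrees of the fields generated by the points are not bounded: the `u_j` range over the whole
division hull of `Γ`, a group of infinite degree over `ℚ`, and the `s_j` over all points of small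
height.  The number of points is bounded by a polynomial in the height of the vectors.

(2) If `X` is uniruled, this fails, even for the trivial group: for some `r` and every `G` there
are algebraic vectors `V_1, …, V_r` such that for all `ε > 0` infinitely many points of `X` off
`G = 0` are of the form `∑ s_j V_j` with `h(s) < ε` (times roots of unity).

Method: library folders `Y215/SK` (finite rank, moving coefficients) and `Y215/SP` (small heights)
of the starting repository, theorem `mix_finite`, which no starting hand-in of this problem states.
-/

namespace Pool.Agent.Results.MP_7ede32_ag.NearFiniteRank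

open MvPolynomial Pool.Agent.Helper259.AbsHt Pool.Agent.H533R3.SL Pool.Agent.Y215.SK

theorem result :
    (∀ d r : ℕ, ∃ ε : ℝ, 0 < ε ∧ ∀ (k : Type) [Field k] (n N : ℕ)
      (P : Fin N → MvPolynomial (Fin (n + 1)) k), (∀ i, ∃ e, e ≤ d ∧ (P i).IsHomogeneous e) →
      (Ideal.span (Set.range P)).IsPrime → ¬ Uniruled (Ideal.span (Set.range P)) →
      ∃ G : MvPolynomial (Fin (n + 1)) k, (∃ e, G.IsHomogeneous e) ∧
        G ∉ Ideal.span (Set.range P) ∧
        ∀ [Algebra k Qbar] (Γ : Subgroup Qbarˣ), Γ.FG → ∃ (A : ℝ) (e : ℕ),
          ∀ V : Fin r → Fin (n + 1) → Qbar, (mixPts P G Γ ε V).Finite ∧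
            ((mixPts P G Γ ε V).ncard : ℝ) ≤ A * (1 + hV V) ^ e) ∧
    (∀ (k : Type) [Field k] [NumberField k] (n N : ℕ) (P : Fin N → MvPolynomial (Fin (n + 1)) k),
      Uniruled (Ideal.span (Set.range P)) →
      ∃ r : ℕ, ∀ G : MvPolynomial (Fin (n + 1)) k, (∃ e, G.IsHomogeneous e) →
        G ∉ Ideal.span (Set.range P) →
        ∃ (_ : Algebra k Qbar) (V : Fin r → Fin (n + 1) → Qbar), ∀ ε : ℝ, 0 < ε →
          (mixPts P G ⊥ ε V).Infinite) :=
  ⟨Pool.Agent.R870.near_finite, fun k _ _ _ _ P hu => Pool.Agent.R870.near_converse k P hu⟩

end Pool.Agent.Results.MP_7ede32_ag.NearFiniteRank
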