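import Mathlib
import Pool.Agent.R870.Tors

set_option autoImplicit false

/-!
# The strong Lang conjecture for combinations of given vectors with multipliers of small height

(1) For all natural numbers `d` and `r` there are a number `ε > 0` and a number `M` such that for
every field `k`, every `n` and every integral closed subvariety `X` of projective `n`-space over
`k` which is given by forms of degree at most `d` and is not uniruled (for instance a variety of
general type of positive dimension over a number field), there is ONE proper closed subset
`Z = X ∩ {G = 0}` of `X`, defined over `k`, with the following property.  For every extension field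
`L` of `k` containing the algebraic numbers, and for ALL vectors `v_1, …, v_r` in `L ^ (n + 1)`, at
most `M` points of `(X ∖ Z)(L)` have homogeneous coordinates `t_1 v_1 + … + t_r v_r` with algebraic
numbers `t_j` such that the point `(t_1 : … : t_r)` has absolute logarithmic height less than `ε`,
in particular with roots of unity `t_j`.

The field `L` and the vectors `v_j` are arbitrary (for instance the `v_j` can be linearly
independent transcendental vectors or algebraic vectors of any height and degree), and neither the
number `M` nor `ε` depends on `X`, `n`, `k`, `L` and the vectors.

(2) If `X` is uniruled (over a number field), this fails even for roots of unity and algebraic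
vectors: for some `r` and every `G` there are algebraic vectors `v_1, …, v_r` such that infinitely
many points of `X` off `G = 0` have coordinates `∑ ζ_j v_j` with roots of unity `ζ_j`.

Method (library folder `Y215/SP` of the starting repository, theorem `small_multipliers`, which no
starting hand-in states): linear relations between algebraic numbers of small height with rational
coefficients only come from roots of unity; a determinant argument then bounds the number of the
nondegenerate solutions of a linear equation with coefficients in `L` in multipliers of small
height.  Applied to the monomials of the equations of `X` this gives rational curves with `r` terms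
through the points; since `X` is not uniruled, the nonconstant ones lie in a fixed hypersurface.
-/

namespace Pool.Agent.Results.MP_7ede32_ag.SmallMultipliers

open MvPolynomial Pool.Agent.Helper259.AbsHt Pool.Agent.H533R3.SL Pool.Agent.Y215.SP

theorem result :
    (∀ d r : ℕ, ∃ ε : ℝ, 0 < ε ∧ ∃ M : ℕ, ∀ (k : Type) [Field k] (n N : ℕ)
      (P : Fin N → MvPolynomial (Fin (n + 1)) k), (∀ i, ∃ e, e ≤ d ∧ (P i).IsHomogeneous e) →
      (Ideal.span (Set.range P)).IsPrime → ¬ Uniruled (Ideal.span (Set.range P)) →
      ∃ G : MvPolynomial (Fin (n + 1)) k, (∃ e, G.IsHomogeneous e) ∧
        G ∉ Ideal.span (Set.range P) ∧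
        ∀ (L : Type) [Field L] [Algebra k L] (ι : Qbar →+* L) (v : Fin r → Fin (n + 1) → L),
          (smallOff ι P G ε v).encard ≤ M) ∧
    (∀ (k : Type) [Field k] [NumberField k] (n N : ℕ) (P : Fin N → MvPolynomial (Fin (n + 1)) k),
      Uniruled (Ideal.span (Set.range P)) →
      ∃ r : ℕ, ∀ G : MvPolynomial (Fin (n + 1)) k, (∃ e, G.IsHomogeneous e) →
        G ∉ Ideal.span (Set.range P) →
        ∃ (_ : Algebra k Qbar) (v : Fin r → Fin (n + 1) → Qbar), (torsOff P G v).Infinite) := by
  refine ⟨fun d r => ⟨epsn ((d + 1 + 1) ^ r) / (d + 1 : ℕ), ?_,
    2 ^ r * M0 ((d + 1 + 1) ^ r) (d + 1) r, fun k _ n N P hP hprime hnu => ?_⟩,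
    fun k _ _ n N P hu => Pool.Agent.R870.tors_converse k P hu⟩
  · exact div_pos (epsn_pos _ (Nat.one_le_pow _ _ (by omega))) (by positivity)
  · exact small_multipliers P (d + 1) (by omega)
      (fun i => (hP i).imp fun e he => ⟨he.1.trans (Nat.le_succ d), he.2⟩) hprime hnu r

end Pool.Agent.Results.MP_7ede32_ag.SmallMultipliers
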